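import Pool.Agent.Helper3.SP.Ord

/-!
# Density arguments for the generic pseudo-intersections (block B)
-/

namespace Pool.Agent.Helper3.SP

open Cardinal Set

variable {A L : Type} [LinearOrder A] [LinearOrder L]

theorem mk_insert_lt' {α : Type} {s : Set α} {a : α} {κ : Cardinal.{0}} (hκ : ℵ₀ ≤ κ)
    (hs : #s < κ) : #(insert a s : Set α) < κ :=
  lt_of_le_of_lt mk_insert_le (add_lt_of_lt hκ hs (lt_of_lt_of_le one_lt_aleph0 hκ))

set_option linter.unusedSectionVars false in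
theorem Bn_promise (h : Hyp A L) (i : Ix A L) (l : L) (p : PC A L) :
    ∃ q ≤ p, (i, l) ∈ q.1.K ∧ q.1.S = p.1.S := by
  refine ⟨⟨{ p.1 with K := insert (i, l) p.1.K }, p.2.1, mk_insert_lt' h.unc.le p.2.2⟩, ?_,
    mem_insert _ _, rfl⟩
  exact LeD.of_agree le_rfl (fin_diff_refl p.1) (fun _ _ _ => Iff.rfl)
    (fun _ _ _ h => mem_insert_of_mem _ h)

set_option linter.unusedSectionVars false in
theorem Bn_sub (i : Ix A L) {l : L} {q : PC A L} (hq : (i, l) ∈ q.1.K) {r : PC A L}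
    (hr : r ≤ q) {b : A} (hb : (i, b) ∈ r.1.S) (hb' : (i, b) ∉ q.1.S) : Frc i r.1 l b :=
  (hr.2.2 i trivial).2.2 b hb hb' l hq

theorem Bn_unb (h : Hyp A L) (i : Ix A L) (hi : ∀ (q : PC A L) (K : Set L) (c : A), #K < #A →
      ∃ r ≤ q, ∃ b, c < b ∧ ∀ l ∈ K, Frc i r.1 l b) (q : PC A L) (c : A) :
    ∃ r ≤ q, ∃ b, c < b ∧ (i, b) ∈ r.1.S := by
  have hK : #{l : L | (i, l) ∈ q.1.K} < #A := by
    refine lt_of_le_of_lt ?_ q.2.2
    refine mk_le_of_injective (f := fun l => (⟨(i, l.1), l.2⟩ : q.1.K)) ?_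
    intro l l' hll
    have h1 := congrArg Subtype.val hll
    exact Subtype.ext (Prod.ext_iff.1 h1).2
  obtain ⟨r, hrq, b, hcb, hb⟩ := hi q _ c hK
  have hrq' : LeC r.1 q.1 := hrq
  set t : RC A L := { mix (Des i) r.1 q.1 with S := insert (i, b) (mix (Des i) r.1 q.1).S } with ht
  have htS : ∀ j ≠ i, ∀ b', (j, b') ∈ t.S ↔ (j, b') ∈ (mix (Des i) r.1 q.1).S := by
    intro j hj b'
    rw [ht]
    constructor
    · rintro (h1 | h1)
      · exact absurd (Prod.ext_iff.1 h1).1 hj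
      · exact h1
    · exact fun h1 => Or.inr h1
  have hne : ∀ j ∈ Des i, j ≠ i := fun j hj hji => Des_irrefl i (hji ▸ hj)
  have htr : LeD (Des i) t r.1 := by
    refine LeD.of_agree le_rfl (fin_diff_refl r.1) (fun j hj b' => ?_) (fun j hj l hl => ?_)
    · rw [htS j (hne j hj), mem_mix_S hj]
    · exact (mem_mix_K hj).2 hl
  have hsm : Sm t := ⟨mk_insert_lt' h.unc.le (Sm_mix h.unc.le r.2 q.2).1,
    (Sm_mix h.unc.le r.2 q.2).2⟩
  refine ⟨⟨t, hsm⟩, ?_, b, hcb, Or.inl rfl⟩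
  refine ⟨hrq'.1, hrq'.2.1, fun j _ => ?_⟩
  by_cases hj : j ∈ Des i
  · have h1 := hrq'.2.2 j trivial
    refine ⟨fun b' hb' => (htS j (hne j hj) b').2 ((mem_mix_S hj).2 (h1.1 b' hb')),
      fun l hl => (mem_mix_K hj).2 (h1.2.1 l hl), fun b' hb' hb'' l hl => ?_⟩
    have h2 : Frc j r.1 l b' :=
      h1.2.2 b' ((mem_mix_S hj).1 ((htS j (hne j hj) b').1 hb')) hb'' l hl
    exact h2.mono (htr.anti fun k hk => Des_trans hj hk)
  · refine ⟨fun b' hb' => Or.inr ((notMem_mix_S hj).2 hb'), fun l hl => (notMem_mix_K hj).2 hl,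
      fun b' hb' hb'' l hl => ?_⟩
    rcases hb' with h1 | h1
    · have h2 := Prod.ext_iff.1 h1
      simp only at h2
      obtain ⟨rfl, rfl⟩ := h2
      exact (hb l hl).mono htr
    · exact absurd ((notMem_mix_S hj).1 h1) hb''

end Pool.Agent.Helper3.SP
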